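import Pool.Agent.MP_ab1118_co.Semi

set_option autoImplicit false

namespace Pool.Agent.Results.MP_ab1118_co.AllButOne

open Finset

/-- The total shortage: the sum over all piles of `max 0 (t - b i)`. -/
def short {n : ℕ} (b : Fin n → ℕ) (t : ℕ) : ℕ := ∑ i, (t - b i)

/-- Exact slow Nim with `k + 1` piles in which a move takes one token from each of exactly `k`
nonempty piles: for every `k ≥ 1` the P-positions have the closed form below and form a
semilinear set. -/
theorem result (k : ℕ) (hk : 1 ≤ k) (P : Set (Fin (k + 1) → ℕ))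
    (hP : ∀ x : Fin (k + 1) → ℕ, x ∈ P ↔
      ∀ S : Finset (Fin (k + 1)), S.card = k → (∀ i ∈ S, 1 ≤ x i) →
        (fun i => if i ∈ S then x i - 1 else x i) ∉ P) :
    (∀ x : Fin (k + 1) → ℕ, x ∈ P ↔
      ∃ q : ℕ, short (fun i => x i / 2) q ≤ q ∧
        (q + 1 < short (fun i => (x i + 1) / 2) (q + 1) ∨
          ((∀ i, Odd (x i) ∧ x i ≤ 2 * q + 1) ∧ short (fun i => x i / 2) q + k = q + 1))) ∧
    IsSemilinearSet P := by
  have key := Pool.Agent.MP_ab1118_co.Game.mem_iff_good hk P hP
  refine ⟨fun x => ?_, ?_⟩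
  · rw [key]
    unfold Pool.Agent.MP_ab1118_co.Game.Good
    refine exists_congr fun q => and_congr Iff.rfl (or_congr ?_ ?_)
    · rw [← Pool.Agent.MP_ab1118_co.Game.high_succ]
      exact Iff.rfl
    · unfold Pool.Agent.MP_ab1118_co.Game.Exc
      refine and_congr (forall_congr' fun i => ?_) Iff.rfl
      rw [Nat.odd_iff]
      constructor <;> intro h <;> exact ⟨h.1, by omega⟩
  · have : P = {x | Pool.Agent.MP_ab1118_co.Game.Good x} := Set.ext fun x => key x
    rw [this]
    exact Pool.Agent.MP_ab1118_co.Semi.semilinear_good hk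

end Pool.Agent.Results.MP_ab1118_co.AllButOne
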